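import Pool.Agent.H.MP_6503f0_an.A

set_option autoImplicit false

namespace Pool.Agent.Results.MP_6503f0_an.Yes

open Pool.Agent.H.MP_6503f0_an

theorem result (A : Type) [NormedAddCommGroup A] [NormedSpace ℂ A] [CompleteSpace A]
    (m : A →L[ℂ] A →L[ℂ] A) (s : A → A) (h : IsJB (pr m) s) (x : Bi A) (hx : x ∈ Mult m) :
    Set.MapsTo (fun y => ar m x y) (Mult m) (Mult m) ∧
    @ContinuousOn (Bi A) (Bi A) (js m) (js m) (fun y => ar m x y) (Mult m) ∧
    @ContinuousOn (Bi A) (Bi A) (js m) (js m) (fun y => ar m y x) (Mult m) :=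
  ⟨fun _ hy => h.jb.mem hx hy,
    fun _ _ => h.jb.sepR hx (y := id) (@nhdsWithin_le_nhds _ (js m) _ _),
    fun _ _ => h.jb.sepL hx (y := id) (@nhdsWithin_le_nhds _ (js m) _ _)⟩

end Pool.Agent.Results.MP_6503f0_an.Yes
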